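import Mathlib
import Pool.Agent.V11250.TF.Main

/-!
MP_9768d1_an, Q1, negative answer.  There is a finite set `K` of upper triangular 2 x 2 matrices
for which no finite number of steps of the iteration reaches the T4-convex hull.  Moreover the
sets `K⁽ⁱ⁾` of this example increase with `i`, so it does not matter whether `K⁽ⁱ⁾` is added to
`K⁽ⁱ⁺¹⁾` or not.
-/

namespace Pool.Agent.Results.MP_9768d1_an.IterationDoesNotStop

open Pool.Agent.V11269.T4 (Pt)
open Pool.Agent.V11250.TF

theorem result : ∃ K : Set Pt, K.Finite ∧ (∀ i, stage K i ⊆ stage K (i + 1)) ∧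
    ∀ N : ℕ, (⋃ i ∈ Set.Iic N, stage K i) ≠ t4Hull K := by
  refine ⟨KK, finite_KK, stage_mono, fun N hN => ?_⟩
  obtain ⟨n, hn⟩ := exists_not_mem N
  have h1 : ((1, 1, -((1 / 162 : ℝ) ^ n)) : Pt) ∈ t4Hull KK :=
    Set.mem_iUnion.mpr ⟨6 * n, reach n⟩
  rw [← hN] at h1
  simp only [Set.mem_iUnion] at h1
  obtain ⟨i, hi, hmem⟩ := h1
  exact hn (stage_le hi hmem)

end Pool.Agent.Results.MP_9768d1_an.IterationDoesNotStop
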